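import Pool.Agent.H9.Dir3

set_option autoImplicit false

namespace Pool.Agent.Results.MP_ec4324_co.Counter

/-- S meets all lines parallel to the subspace v in the same number of points -/
def Equidistributed {p : ℕ} (S : Set (ZMod p × ZMod p))
    (v : Submodule (ZMod p) (ZMod p × ZMod p)) : Prop :=
  ∀ a b : ZMod p × ZMod p, {q ∈ S | q - a ∈ v}.ncard = {q ∈ S | q - b ∈ v}.ncard

theorem result : ∃ (p d : ℕ), p.Prime ∧ d + 2 ≤ p ∧ ∀ S : Set (ZMod p × ZMod p),
    {v : Submodule (ZMod p) (ZMod p × ZMod p) |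
      Module.finrank (ZMod p) v = 1 ∧ Equidistributed S v}.ncard ≠ d :=
  Pool.Agent.H9.Dir.counter

end Pool.Agent.Results.MP_ec4324_co.Counter
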